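import Pool.Agent.helper62.QU.Spec

/-!
# Row PAR: small cells
-/

open scoped MatrixGroups ContDiff Topology UpperHalfPlane
open UpperHalfPlane MeasureTheory Filter Set

namespace Pool.Agent.QU

/-- a bounded measurable set has a finite partition into small measurable nonempty cells -/
theorem PAR_cells (F K : Set ℍ) (hF : MeasurableSet F) (hK : IsCompact K) (hFK : F ⊆ K) (r : ℝ)
    (hr : 0 < r) : ∃ (k : ℕ) (c : Fin k → Set ℍ) (p : Fin k → ℍ), (∀ i, MeasurableSet (c i)) ∧
      (∀ i, p i ∈ c i) ∧ (⋃ i, c i) = F ∧ (∀ i j, i ≠ j → Disjoint (c i) (c j)) ∧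
      ∀ i, ∀ z ∈ c i, ∀ w ∈ c i, dist z w < r + r := by
  classical
  have hcov : K ⊆ ⋃ i : ℕ, Metric.ball (TopologicalSpace.denseSeq ℍ i) r := by
    intro z _
    obtain ⟨i, hi⟩ := (TopologicalSpace.denseRange_denseSeq ℍ).exists_dist_lt z hr
    exact mem_iUnion.2 ⟨i, hi⟩
  obtain ⟨t, ht⟩ := hK.elim_finite_subcover _ (fun i => Metric.isOpen_ball) hcov
  set B : ℕ → Set ℍ := fun i => if i ∈ t then F ∩ Metric.ball (TopologicalSpace.denseSeq ℍ i) r else ∅ with hB
  have hBm : ∀ i, MeasurableSet (B i) := by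
    intro i
    simp only [hB]
    split_ifs
    · exact hF.inter Metric.isOpen_ball.measurableSet
    · exact MeasurableSet.empty
  have hBU : (⋃ i, B i) = F := by
    apply Subset.antisymm
    · apply iUnion_subset
      intro i
      simp only [hB]
      split_ifs
      · exact inter_subset_left
      · exact empty_subset _
    · intro z hz
      obtain ⟨i, hi⟩ := mem_iUnion.1 (ht (hFK hz))
      obtain ⟨hit, hi2⟩ := mem_iUnion.1 hi
      refine mem_iUnion.2 ⟨i, ?_⟩
      simp only [hB]
      rw [if_pos hit]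
      exact ⟨hz, hi2⟩
  have hsub : ∀ i, disjointed B i ⊆ B i := fun i => disjointed_subset B i
  set I : Finset ℕ := t.filter fun i => (disjointed B i).Nonempty with hI
  refine ⟨I.card, fun j => disjointed B (I.equivFin.symm j), fun j =>
    (Finset.mem_filter.1 (I.equivFin.symm j).2).2.some, ?_, ?_, ?_, ?_, ?_⟩
  · intro j
    exact MeasurableSet.disjointed hBm _
  · intro j
    exact (Finset.mem_filter.1 (I.equivFin.symm j).2).2.some_mem
  · apply Subset.antisymm
    · apply iUnion_subset
      intro j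
      exact (hsub _).trans ((subset_iUnion B _).trans hBU.subset)
    · intro z hz
      rw [← hBU, ← iUnion_disjointed] at hz
      obtain ⟨i, hi⟩ := mem_iUnion.1 hz
      have hit : i ∈ t := by
        by_contra hit
        have := hsub i hi
        simp only [hB] at this
        rw [if_neg hit] at this
        exact this
      have hiI : i ∈ I := Finset.mem_filter.2 ⟨hit, ⟨z, hi⟩⟩
      refine mem_iUnion.2 ⟨I.equivFin ⟨i, hiI⟩, ?_⟩
      rw [Equiv.symm_apply_apply]
      exact hi
  · intro i j hij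
    apply disjoint_disjointed B
    intro h
    apply hij
    exact I.equivFin.symm.injective (Subtype.ext h)
  · intro j z hz w hw
    have h1 := hsub _ hz
    have h2 := hsub _ hw
    have hit : ((I.equivFin.symm j : I) : ℕ) ∈ t := (Finset.mem_filter.1 (I.equivFin.symm j).2).1
    simp only [hB] at h1 h2
    rw [if_pos hit] at h1 h2
    have h3 := h1.2
    have h4 := h2.2
    rw [Metric.mem_ball] at h3 h4
    have h5 := dist_triangle_right z w (TopologicalSpace.denseSeq ℍ ((I.equivFin.symm j : I) : ℕ))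
    linarith

theorem PAR (h1 : TTT_stmt) (h2 : DOB_stmt) : PAR_stmt := by
  classical
  intro Γ F a hΓ hF ha
  obtain ⟨-, -, -, -, -, hfin⟩ := h2 Γ F hΓ hF
  obtain ⟨K, hK, hFK⟩ := hF.rel
  obtain ⟨R, hR⟩ := ha.prop
  have hT := hfin K (Metric.cthickening R K) hK hK.cthickening
  set T : Finset Γ := hT.toFinset with hTdef
  set S : Finset Γ := T ∪ T.image (fun γ => γ⁻¹) with hS
  have hT' : ∀ (γ : Γ) (z w : ℍ), z ∈ F → w ∈ F → a z (γ • w) ≠ 0 → γ ∈ S := by
    intro γ z w hz hw hne
    apply Finset.mem_union_left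
    rw [hTdef, Set.Finite.mem_toFinset]
    refine ⟨w, hFK hw, ?_⟩
    apply Metric.mem_cthickening_of_dist_le _ z _ _ (hFK hz)
    rw [dist_comm]
    exact hR _ _ hne
  refine ⟨S, ?_, hT', ?_⟩
  · intro γ hγ
    rw [hS, Finset.mem_union, Finset.mem_image] at hγ ⊢
    rcases hγ with h | ⟨δ, h, rfl⟩
    · exact Or.inr ⟨γ, h, rfl⟩
    · left
      rw [inv_inv]
      exact h
  · intro ε hε
    -- uniform continuity
    have huc : ∀ γ : Γ, ∃ δ : ℝ, 0 < δ ∧ ∀ z ∈ K, ∀ z' ∈ K, ∀ w ∈ K, ∀ w' ∈ K, dist z z' < δ →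
        dist w w' < δ → |a z (γ • w) - a z' (γ • w')| ≤ ε := by
      intro γ
      have hc : Continuous fun q : ℍ × ℍ => a q.1 (γ • q.2) := by
        have h3 : Continuous fun q : ℍ × ℍ => (q.1, γ • q.2) :=
          continuous_fst.prodMk (continuous_snd.const_smul γ)
        exact ha.cont.comp h3
      have h4 := (hK.prod hK).uniformContinuousOn_of_continuous hc.continuousOn
      rw [Metric.uniformContinuousOn_iff] at h4
      obtain ⟨δ, hδ, h5⟩ := h4 ε hε
      refine ⟨δ, hδ, ?_⟩
      intro z hz z' hz' w hw w' hw' hd hd'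
      have h6 := h5 (z, w) ⟨hz, hw⟩ (z', w') ⟨hz', hw'⟩ (by
        rw [Prod.dist_eq]
        exact max_lt hd hd')
      rw [Real.dist_eq] at h6
      exact h6.le
    choose δ hδ hδ' using huc
    obtain ⟨d, hd, hdS⟩ : ∃ d : ℝ, 0 < d ∧ ∀ γ ∈ S, d ≤ δ γ := by
      have : ∀ S : Finset Γ, ∃ d : ℝ, 0 < d ∧ ∀ γ ∈ S, d ≤ δ γ := by
        intro S
        induction S using Finset.induction_on with
        | empty => exact ⟨1, one_pos, fun γ h => absurd h (Finset.notMem_empty γ)⟩
        | insert γ S _ ih =>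
          obtain ⟨d, hd, h⟩ := ih
          refine ⟨min d (δ γ), lt_min hd (hδ γ), ?_⟩
          intro γ' hγ'
          rcases Finset.mem_insert.1 hγ' with rfl | h'
          · exact min_le_right _ _
          · exact (min_le_left _ _).trans (h γ' h')
      exact this S
    obtain ⟨k, c, p, hc1, hc2, hc3, hc4, hc5⟩ := PAR_cells F K hF.meas hK hFK (d / 2) (by linarith)
    refine ⟨k, c, p, hc1, hc2, hc3, hc4, ?_⟩
    intro γ i j z hz w hw
    have hcF : ∀ i, c i ⊆ F := fun i => (subset_iUnion c i).trans hc3.subset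
    by_cases hγ : γ ∈ S
    · apply hδ' γ z (hFK (hcF i hz)) (p i) (hFK (hcF i (hc2 i))) w (hFK (hcF j hw)) (p j)
        (hFK (hcF j (hc2 j)))
      · have := hc5 i z hz (p i) (hc2 i)
        have := hdS γ hγ
        linarith
      · have := hc5 j w hw (p j) (hc2 j)
        have := hdS γ hγ
        linarith
    · have e1 : a z (γ • w) = 0 := by
        by_contra h
        exact hγ (hT' γ z w (hcF i hz) (hcF j hw) h)
      have e2 : a (p i) (γ • p j) = 0 := by
        by_contra h
        exact hγ (hT' γ (p i) (p j) (hcF i (hc2 i)) (hcF j (hc2 j)) h)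
      rw [e1, e2, sub_zero, abs_zero]
      exact hε.le

end Pool.Agent.QU
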